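import Pool.Agent.W528.HD.Fin
import Pool.Agent.W528.HC.MU
import Pool.Agent.W924.HC.PR
import Pool.Agent.W340.HD.IN
import Pool.Agent.W108.HD.ONE
import Pool.Agent.W940.HD.GE
import Pool.Agent.W806.HD.AQ
import Pool.Agent.W177.HD.PF
import Pool.Agent.W551.HD.GN

set_option autoImplicit false

namespace Pool.Agent.Results.MP_1d384c_nt.PolynomialCoverings

open Polynomial Pool.Agent.W528.HC Pool.Agent.W528.HD

/-- **The Birch-Swinnerton-Dyer conjecture for superelliptic Jacobians with polynomial branch points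
over arbitrary superelliptic function fields.**

Let `p ≠ r` be primes, `k` a finite field of characteristic `c = 1` modulo `p r` containing the
`p r`-th roots of unity, `f_i`, `h_l` any polynomials over `k` of degree at most `D` (not all of
the differences `f_i - f_j` constant, not all `h_l` constant), `K = k(t, u)` with
`u ^ r = ∏ h_l(t) ^ b_l`, and `J` the Jacobian of the curve `y ^ p = ∏ (x - f_i(t)) ^ a_i` over `K`,
where `D (∑ a_i / p + ∑ b_l / r) < 1`. The L-function of `J` over `K` is the product of the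
L-functions of the characters `(j, s)`, `0 < j < p`, `0 ≤ s < r`, which are polynomials
`∏ (1 - x T)` (Grothendieck): `IsPolyL2` holds with the multiset `A j s` of the `x`. No position of
the branch curves is excluded.

Theorem: (1) the product `lPoly p r A` of these polynomials has the logarithmic coefficients
given by the numbers of points of the surface `y ^ p = ∏ (x - f_i(t)) ^ a_i`,
`u ^ r = ∏ h_l(t) ^ b_l` and of its base curve (so it is `L(J, T)`, `T = q^(-s)`, `q = |k|`);
(2) it does not vanish at `ζ / q` for any root of unity `ζ`: `L(J, 1) ≠ 0` over all finite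
extensions of `k`. -/
theorem result (p r c D : ℕ) (hp : p.Prime) (hr : r.Prime) (hpr : p ≠ r) [Fact c.Prime]
    (hc : p * r ∣ c - 1) (k : Type) [Field k] [Fintype k] [CharP k c]
    (z : k) (hz : IsPrimitiveRoot z (p * r))
    (E : Type) [Field E] [CharZero E] [IsAlgClosed E] (μ : E) (hμ : IsPrimitiveRoot μ (p * r))
    (m n : ℕ) (hD : 1 ≤ D) (f : Fin m → k[X]) (hf : ∀ i, (f i).natDegree ≤ D) (a : Fin m → ℕ)
    (h : Fin n → k[X]) (hh : ∀ l, (h l).natDegree ≤ D) (b : Fin n → ℕ)
    (ha : ∀ i, 0 < a i) (hb : ∀ l, 0 < b l)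
    (hab : D * (r * ∑ i, a i + p * ∑ l, b l) < p * r)
    (A : ℕ → ℕ → Multiset E)
    (hA : ∀ j s, 0 < j → j < p → s < r → IsPolyL2 k p r f a h b z μ j s (A j s)) :
    (∀ (L : Type) [Field L] [Fintype L] [Algebra k L],
      ∑ j ∈ Finset.Ico 1 p, ∑ s ∈ Finset.range r,
          ((A j s).map fun x => x ^ Module.finrank k L).sum
        = (totalPts L p r (fun i => (f i).map (algebraMap k L)) a
            (fun l => (h l).map (algebraMap k L)) b : E)
          - (Fintype.card L : E) * (basePts L r (fun l => (h l).map (algebraMap k L)) b : E)) ∧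
    ∀ (ζ : E) (M : ℕ), 0 < M → ζ ^ M = 1 →
      (lPoly p r A).eval (ζ * (Fintype.card k : E)⁻¹) ≠ 0 :=
  fin_poly2 Pool.Agent.W551.HD.GN.main
    (Pool.Agent.W108.HD.ONE.main Pool.Agent.W551.HD.GN.main Pool.Agent.W340.HD.IN.main
      Pool.Agent.W135.HB.SA.main)
    Pool.Agent.W940.HD.GE.main Pool.Agent.W806.HD.AQ.main
    (Pool.Agent.W177.HD.PF.main Pool.Agent.W924.HC.PR.main mu_main)
    hp hr hpr hc k hz hμ hD f hf a h hh b ha hb hab A hA

end Pool.Agent.Results.MP_1d384c_nt.PolynomialCoverings
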