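import Pool.Agent.W555.TG.Aux1

set_option autoImplicit false
set_option maxHeartbeats 1000000

namespace Pool.Agent.Results.MP_1d384c_nt.SuperellipticTwists

open Polynomial Function

/-- Equations `g = 0` (`g ∈ eqs`) and an inequation `h ≠ 0` in affine `m`-space over `k`. -/
structure Base (k : Type) [Field k] (m : ℕ) where
  eqs : Set (MvPolynomial (Fin m) k)
  h : MvPolynomial (Fin m) k

/-- The geometric points of the variety `V` described by the data. -/
def Base.Mem {k : Type} [Field k] {m : ℕ} (V : Base k m) (t : Fin m → AlgebraicClosure k) : Prop :=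
  (∀ g ∈ V.eqs, MvPolynomial.aeval t g = 0) ∧ MvPolynomial.aeval t V.h ≠ 0

/-- The specialisation at `t` of a polynomial `f` in `x` whose coefficients are polynomials in
the coordinates of the base. -/
noncomputable def spec {k : Type} [Field k] {m : ℕ} (f : (MvPolynomial (Fin m) k)[X])
    (t : Fin m → AlgebraicClosure k) : (AlgebraicClosure k)[X] :=
  f.map (MvPolynomial.aeval (R := k) t : MvPolynomial (Fin m) k →ₐ[k] AlgebraicClosure k)

variable {k : Type} [Field k] [Fintype k] {m : ℕ}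

/-- The points of `V` over the extension of degree `n` of the finite field `k`. -/
def basePoints (V : Base k m) (n : ℕ) : Set (Fin m → AlgebraicClosure k) :=
  {t | V.Mem t ∧ ∀ i, t i ^ (Fintype.card k ^ n) = t i}

/-- The points over the extension of degree `n` of the finite cover `f(t, x) = 0` of `V`. -/
def branchPoints (V : Base k m) (f : (MvPolynomial (Fin m) k)[X]) (n : ℕ) :
    Set ((Fin m → AlgebraicClosure k) × AlgebraicClosure k) :=
  {p | p.1 ∈ basePoints V n ∧ p.2 ^ (Fintype.card k ^ n) = p.2 ∧ (spec f p.1).eval p.2 = 0}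

/-- The affine points over the extension of degree `n` of the curve `w ^ l = c f(t, x)`. -/
def curvePoints (f : (MvPolynomial (Fin m) k)[X]) (l : ℕ) (c : k) (n : ℕ)
    (t : Fin m → AlgebraicClosure k) : Set (AlgebraicClosure k × AlgebraicClosure k) :=
  {p | p.1 ^ (Fintype.card k ^ n) = p.1 ∧ p.2 ^ (Fintype.card k ^ n) = p.2 ∧
    p.2 ^ l = algebraMap k (AlgebraicClosure k) c * (spec f t).eval p.1}

/-- `P(0) = 1` and `T P'(T) / P(T) = ∑_{n ≥ 1} c(n) T^n`. -/
def HasLogCoeffs (P : ℤ[X]) (c : ℕ → ℤ) : Prop :=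
  P.coeff 0 = 1 ∧ ((X * derivative P : ℤ[X]) : PowerSeries ℤ)
    = (P : PowerSeries ℤ) * PowerSeries.mk (fun n => if n = 0 then 0 else c n)

/-- `R` is the product `∏_{v ∈ V} P_v(T^{deg v})⁻¹`, where `P_v(T) / ((1 - T) (1 - q_v T))` is the
zeta function of the fibre `C_v : w ^ l = c f(v, x)` with one point at infinity; it is the
`L`-function of the Jacobian up to finitely many Euler factors. The `n`-th coefficient of `T R'/R`
is the sum over the points `t` of `V` over the extension of degree `n` of the traces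
`q^n + 1 - #C_t`, where `#C_t` is the number of affine points plus one. -/
def IsLFunction (V : Base k m) (f : (MvPolynomial (Fin m) k)[X]) (l : ℕ) (c : k) (R : ℤ[X]) :
    Prop :=
  HasLogCoeffs R fun n => ∑ᶠ t ∈ basePoints V n,
    ((Fintype.card k : ℤ) ^ n + 1 - (((curvePoints f l c n t).ncard : ℤ) + 1))

/-- `Z(B, T) / Z(V, qT) = G(T) / H(T)`, where `B` is the cover `f(t, x) = 0` of `V`. -/
def IsZetaQuotient (V : Base k m) (f : (MvPolynomial (Fin m) k)[X]) (G H : ℤ[X]) : Prop :=
  ∃ g h : ℕ → ℤ, HasLogCoeffs G g ∧ HasLogCoeffs H h ∧ ∀ n : ℕ, 0 < n →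
    g n - h n = ((branchPoints V f n).ncard : ℤ)
      - (Fintype.card k : ℤ) ^ n * ((basePoints V n).ncard : ℤ)

/-- The order of vanishing of `R` at `T = 1 / q`. -/
noncomputable def order (k : Type) [Field k] [Fintype k] (R : ℤ[X]) : ℕ :=
  rootMultiplicity ((Fintype.card k : ℚ)⁻¹) (R.map (Int.castRingHom ℚ))

/-- The multiplicity of the root `1` of `A` modulo `l`. -/
noncomputable def mu (l : ℕ) (A : ℤ[X]) : ℕ :=
  rootMultiplicity 1 (A.map (Int.castRingHom (ZMod l)))

/-- `R` is a product of conjugate polynomials over the field of `l`-th roots of unity. -/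
def IsNorm (l : ℕ) (R : ℤ[X]) : Prop :=
  ∃ Q : (CyclotomicField l ℚ)[X], R.map (Int.castRingHom (CyclotomicField l ℚ))
    = ∏ σ : (CyclotomicField l ℚ) ≃ₐ[ℚ] (CyclotomicField l ℚ),
      Q.map (σ : CyclotomicField l ℚ →+* CyclotomicField l ℚ)

/-- product dynamics -/
noncomputable def PhiP (k : Type) [Field k] [Fintype k] (m : ℕ) :
    (Fin m → AlgebraicClosure k) × AlgebraicClosure k →
      (Fin m → AlgebraicClosure k) × AlgebraicClosure k :=
  Prod.map (Pool.Agent.W555.TC.Phi k (AlgebraicClosure k))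
    (Pool.Agent.W555.TC.fr k (AlgebraicClosure k))

lemma perP_iff (n : ℕ) (p : (Fin m → AlgebraicClosure k) × AlgebraicClosure k) :
    IsPeriodicPt (PhiP k m) n p ↔ (∀ i, p.1 i ^ (Fintype.card k ^ n) = p.1 i) ∧
      p.2 ^ (Fintype.card k ^ n) = p.2 := by
  unfold PhiP
  rw [isPeriodicPt_prodMap, Pool.Agent.W555.TC.per_iff]
  apply and_congr Iff.rfl
  unfold IsPeriodicPt IsFixedPt
  rw [Pool.Agent.W555.TC.fr_iter]

lemma perP_finite (n : ℕ) (hn : 0 < n) : {z | IsPeriodicPt (PhiP k m) n z}.Finite := by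
  have h1 : {z | IsPeriodicPt (Pool.Agent.W555.TC.Phi k (AlgebraicClosure k) (ι := Fin m)) n z}.Finite :=
    Pool.Agent.W555.TC.fix_finite k (AlgebraicClosure k) hn
  have h2 := Pool.Agent.W555.TC.Fix_finite k (AlgebraicClosure k) hn
  apply (h1.prod h2).subset
  intro p hp
  obtain ⟨h3, h4⟩ := (perP_iff n p).mp hp
  exact ⟨(Pool.Agent.W555.TC.per_iff k (AlgebraicClosure k) n p.1).mpr h3, h4⟩

lemma base_finite (V : Base k m) {n : ℕ} (hn : 0 < n) : (basePoints V n).Finite := by
  apply (Pool.Agent.W555.TC.fix_finite k (AlgebraicClosure k) (ι := Fin m) hn).subset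
  intro t ht
  exact (Pool.Agent.W555.TC.per_iff k (AlgebraicClosure k) n t).mpr ht.2

lemma aeval_Phi (g : MvPolynomial (Fin m) k) (t : Fin m → AlgebraicClosure k) :
    MvPolynomial.aeval (Pool.Agent.W555.TC.Phi k (AlgebraicClosure k) t) g
      = Pool.Agent.W555.TC.fr k (AlgebraicClosure k) (MvPolynomial.aeval t g) :=
  Pool.Agent.W555.TC.fr_aeval k (AlgebraicClosure k) g t

lemma mem_Phi (V : Base k m) (t : Fin m → AlgebraicClosure k) (h : V.Mem t) :
    V.Mem (Pool.Agent.W555.TC.Phi k (AlgebraicClosure k) t) := by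
  refine ⟨fun g hg => ?_, ?_⟩
  · rw [aeval_Phi, h.1 g hg, map_zero]
  · rw [aeval_Phi]
    intro h0
    exact h.2 ((map_eq_zero _).mp h0)

/-- the value of `f` -/
noncomputable def val (f : (MvPolynomial (Fin m) k)[X])
    (p : (Fin m → AlgebraicClosure k) × AlgebraicClosure k) : AlgebraicClosure k :=
  (spec f p.1).eval p.2

lemma val_Phi (f : (MvPolynomial (Fin m) k)[X])
    (p : (Fin m → AlgebraicClosure k) × AlgebraicClosure k) :
    val f (PhiP k m p) = Pool.Agent.W555.TC.fr k (AlgebraicClosure k) (val f p) := by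
  unfold val spec PhiP
  rw [Prod.map_fst, Prod.map_snd, eval_map, eval_map]
  have h1 := hom_eval₂ f
    ((MvPolynomial.aeval (R := k) p.1 : MvPolynomial (Fin m) k →ₐ[k] AlgebraicClosure k) :
      MvPolynomial (Fin m) k →+* AlgebraicClosure k)
    ((Pool.Agent.W555.TC.fr k (AlgebraicClosure k) : AlgebraicClosure k →ₐ[k] AlgebraicClosure k) :
      AlgebraicClosure k →+* AlgebraicClosure k) p.2
  refine Eq.trans ?_ h1.symm
  congr 1
  ext g
  · simp
  · rw [RingHom.comp_apply]
    exact aeval_Phi _ _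

/-- the number of affine points of the total space -/
lemma total_count (V : Base k m) (f : (MvPolynomial (Fin m) k)[X]) (l : ℕ) (c : k) {n : ℕ}
    (hn : 0 < n) :
    {p : ((Fin m → AlgebraicClosure k) × AlgebraicClosure k) × AlgebraicClosure k |
      p.1.1 ∈ basePoints V n ∧ (p.1.2, p.2) ∈ curvePoints f l c n p.1.1}.ncard
      = ∑ t ∈ (base_finite V hn).toFinset, (curvePoints f l c n t).ncard := by
  classical
  have h2 := Pool.Agent.W555.TC.Fix_finite k (AlgebraicClosure k) hn
  have hfin : {p : ((Fin m → AlgebraicClosure k) × AlgebraicClosure k) × AlgebraicClosure k |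
      p.1.1 ∈ basePoints V n ∧ (p.1.2, p.2) ∈ curvePoints f l c n p.1.1}.Finite := by
    apply (((base_finite V hn).prod h2).prod h2).subset
    rintro ⟨⟨t, x⟩, w⟩ ⟨h3, h4, h5, _⟩
    exact ⟨⟨h3, h4⟩, h5⟩
  rw [Set.ncard_eq_toFinset_card _ hfin,
    Finset.card_eq_sum_card_fiberwise (f := fun p => p.1.1) (t := (base_finite V hn).toFinset)]
  · apply Finset.sum_congr rfl
    intro t ht
    rw [← Set.ncard_coe_finset]
    have e : ((hfin.toFinset.filter fun p => p.1.1 = t : Finset _) :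
        Set (((Fin m → AlgebraicClosure k) × AlgebraicClosure k) × AlgebraicClosure k))
        = (fun p : AlgebraicClosure k × AlgebraicClosure k => ((t, p.1), p.2)) ''
          curvePoints f l c n t := by
      ext ⟨⟨s, x⟩, w⟩
      simp only [Finset.coe_filter, Set.Finite.mem_toFinset, Set.mem_setOf_eq, Set.mem_image,
        Prod.mk.injEq, Prod.exists]
      constructor
      · rintro ⟨⟨h3, h4⟩, rfl⟩
        exact ⟨x, w, h4, ⟨rfl, rfl⟩, rfl⟩
      · rintro ⟨x', w', h4, ⟨rfl, rfl⟩, rfl⟩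
        exact ⟨⟨(Set.Finite.mem_toFinset _).mp ht, h4⟩, rfl⟩
    rw [e, Set.ncard_image_of_injective]
    rintro ⟨a, b⟩ ⟨a', b'⟩ h
    simp only [Prod.mk.injEq, true_and] at h
    exact Prod.ext h.1 h.2
  · intro p hp
    have h3 := (Set.Finite.mem_toFinset hfin).mp (by simpa using hp)
    simpa using h3.1

/-- **Theorem.** Let `k` be a field with `q` elements, `l` a prime dividing `q - 1`, `V` an affine
curve over `k` and `f` a polynomial whose specialisations at the points of `V` have degree `D` prime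
to `l` (they may have multiple roots); let `ε` in `k` not be an `l`-th power, and let `J_i` be the
Jacobian of `w ^ l = ε ^ i f(x)` over the function field of `V`. Let `Z(B, T) / Z(V, qT) = G / H`,
where `B` is the curve `f(t, x) = 0` over `V`. The orders of vanishing at `T = 1/q` of the
`L`-functions of the `l` twists `J_i` satisfy `∑ ord_i + (l - 1) mu(H) ≤ (l - 1) mu(G)`; and if the
`L`-functions are products over the conjugate characters, then at most `mu(G) - mu(H)` of them
vanish. -/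
theorem result (k : Type) [Field k] [Fintype k] (l : ℕ) [Fact l.Prime]
    (hq : l ∣ Fintype.card k - 1) (m : ℕ) (V : Base k m) (f : (MvPolynomial (Fin m) k)[X])
    (D : ℕ) (_hD : ¬ l ∣ D)
    (_hf : ∀ t, V.Mem t → (spec f t).natDegree = D)
    (ε : k) (hε : ∀ a : k, a ^ l ≠ ε) (G H : ℤ[X]) (hGH : IsZetaQuotient V f G H)
    (L : Fin l → ℤ[X]) (hL : ∀ i : Fin l, IsLFunction V f l (ε ^ (i : ℕ)) (L i)) :
    (∑ i, order k (L i) + (l - 1) * mu l H ≤ (l - 1) * mu l G) ∧
    ((∀ i, IsNorm l (L i)) →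
      (Finset.univ.filter fun i => order k (L i) ≠ 0).card + mu l H ≤ mu l G) := by
  classical
  have hl2 := (Fact.out : l.Prime).two_le
  have hqpos : 0 < Fintype.card k := Fintype.card_pos
  have hq1 : ((Fintype.card k : ℕ) : ZMod l) = 1 := Pool.Agent.W555.TC.q_mod hq
  obtain ⟨g, h, hG, hH, hgh⟩ := hGH
  have hG' : Pool.Agent.W555.TC.LogCoeffs G g := hG
  have hH' : Pool.Agent.W555.TC.LogCoeffs H h := hH
  -- point counts
  have hAn : ∀ n : ℕ, 0 < n → ((Pool.Agent.W555.TG.An (PhiP k m) (fun p => V.Mem p.1) n).ncard : ℤ)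
      = (Fintype.card k : ℤ) ^ n * ((basePoints V n).ncard : ℤ) := by
    intro n hn
    have e : Pool.Agent.W555.TG.An (PhiP k m) (fun p => V.Mem p.1) n
        = basePoints V n ×ˢ Pool.Agent.W555.TC.Fix k (AlgebraicClosure k) n := by
      ext p
      constructor
      · rintro ⟨h1, h2⟩
        obtain ⟨h3, h4⟩ := (perP_iff n p).mp h1
        exact ⟨⟨h2, h3⟩, h4⟩
      · rintro ⟨⟨h2, h3⟩, h4⟩
        exact ⟨(perP_iff n p).mpr ⟨h3, h4⟩, h2⟩
    rw [e, Set.ncard_prod, Pool.Agent.W555.TC.Fix_ncard k (AlgebraicClosure k) hn]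
    push_cast; ring
  have hBn : ∀ n : ℕ, Pool.Agent.W555.TG.Bn (PhiP k m) (fun p => V.Mem p.1) (val f) n
      = branchPoints V f n := by
    intro n
    ext p
    constructor
    · rintro ⟨h1, h2, h5⟩
      obtain ⟨h3, h4⟩ := (perP_iff n p).mp h1
      exact ⟨⟨h2, h3⟩, h4, h5⟩
    · rintro ⟨⟨h2, h3⟩, h4, h5⟩
      exact ⟨(perP_iff n p).mpr ⟨h3, h4⟩, h2, h5⟩
  have hDn : ∀ (i : Fin l) (n : ℕ) (hn : 0 < n),
      (Pool.Agent.W555.TG.Dn k (PhiP k m) (fun p => V.Mem p.1)
        (Pool.Agent.W555.TG.tw (val f) ε i) l n).ncard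
      = ∑ t ∈ (base_finite V hn).toFinset, (curvePoints f l (ε ^ (i : ℕ)) n t).ncard := by
    intro i n hn
    rw [← total_count V f l (ε ^ (i : ℕ)) hn]
    congr 1
    ext ⟨⟨t, x⟩, w⟩
    constructor
    · rintro ⟨h1, h2, h5, h6⟩
      obtain ⟨h3, h4⟩ := (perP_iff n (t, x)).mp h2
      refine ⟨⟨h1, h3⟩, h4, ?_, ?_⟩
      · show w ^ (Fintype.card k ^ n) = w
        rw [← Pool.Agent.W555.TC.fr_iter]; exact h5
      · show w ^ l = algebraMap k (AlgebraicClosure k) (ε ^ (i : ℕ)) * (spec f t).eval x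
        rw [map_pow]; exact h6
    · rintro ⟨⟨h1, h3⟩, h4, h5, h6⟩
      refine ⟨h1, (perP_iff n (t, x)).mpr ⟨h3, h4⟩, ?_, ?_⟩
      · rw [Pool.Agent.W555.TC.fr_iter]; exact h5
      · have h7 : w ^ l = algebraMap k (AlgebraicClosure k) (ε ^ (i : ℕ)) * (spec f t).eval x := h6
        rw [map_pow] at h7; exact h7
  have hL' : ∀ i : Fin l, Pool.Agent.W555.TC.LogCoeffs (L i)
      (Pool.Agent.W555.TG.cX k (PhiP k m) (fun p => V.Mem p.1)
        (Pool.Agent.W555.TG.tw (val f) ε i) l) := by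
    intro i
    have h0 : Pool.Agent.W555.TC.LogCoeffs (L i) (fun n => ∑ᶠ t ∈ basePoints V n,
      ((Fintype.card k : ℤ) ^ n + 1 - (((curvePoints f l (ε ^ (i : ℕ)) n t).ncard : ℤ) + 1))) :=
      hL i
    apply Pool.Agent.W555.TG.logCoeffs_congr h0
    intro n hn
    unfold Pool.Agent.W555.TG.cX
    rw [hAn n hn, hDn i n hn, finsum_mem_eq_finite_toFinset_sum _ (base_finite V hn)]
    have e1 : ((basePoints V n).ncard : ℤ) = ((base_finite V hn).toFinset.card : ℤ) := by
      rw [Set.ncard_eq_toFinset_card _ (base_finite V hn)]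
    rw [e1, Finset.sum_congr rfl (fun t _ => show (Fintype.card k : ℤ) ^ n + 1
      - (((curvePoints f l (ε ^ (i : ℕ)) n t).ncard : ℤ) + 1)
      = (Fintype.card k : ℤ) ^ n - ((curvePoints f l (ε ^ (i : ℕ)) n t).ncard : ℤ) by ring),
      Finset.sum_sub_distrib, Finset.sum_const, nsmul_eq_mul]
    push_cast; ring
  have hl0 : 0 < l := (Fact.out : l.Prime).pos
  obtain ⟨M, _, hmain⟩ := Pool.Agent.W555.TG.master (k := k) (K := AlgebraicClosure k)
    (PhiP k m) (fun p => V.Mem p.1) (val f) hε (fun z hz => mem_Phi V z.1 hz) (val_Phi f)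
    perP_finite hq hL' hG' hH' (by
      intro n hn
      rw [hBn n, hAn n hn]
      exact hgh n hn) (A := Fintype.card k) hqpos.ne' hq1 ⟨0, hl0⟩
  have h1 : ∑ i, order k (L i) + (l - 1) * mu l H ≤ (l - 1) * mu l G := hmain
  refine ⟨h1, fun hN => ?_⟩
  have hpos : 0 < l - 1 := by omega
  have hle : mu l H ≤ mu l G := by
    apply Nat.le_of_mul_le_mul_left _ hpos
    omega
  have h2 : ∑ i, order k (L i) ≤ (l - 1) * (mu l G - mu l H) := by
    rw [Nat.mul_sub]; omega
  have h3 := Pool.Agent.W555.TG.count_nonzero hl2 (fun i => order k (L i)) h2 (by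
    intro i
    obtain ⟨Q, hQ⟩ := hN i
    apply Pool.Agent.W555.TG.norm_mult _ hQ
    intro h0
    have h4 := (hL i).1
    rw [h0] at h4
    simp at h4)
  have h3' : (Finset.univ.filter fun i => order k (L i) ≠ 0).card ≤ mu l G - mu l H := h3
  omega

end Pool.Agent.Results.MP_1d384c_nt.SuperellipticTwists
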