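import Pool.Agent.W309.T3.Family

/-!
# Elliptic curves with a rational subgroup of order three over function fields

Let `K` be a function field of characteristic at least five over a finite field `k` with `q`
elements. Every elliptic curve over `K` with a `K`-rational subgroup of order three is
`y ^ 2 = x ^ 3 + D (α x + β) ^ 2`. We bound the order of vanishing of its `L`-function at
`T = 1 / q` by the orders at `1 / q` modulo three of the zeta functions of `K` and of `K(√D)` and
by local terms, make the bound explicit over `k(t)`, and derive infinite families with
`L(1 / q) ≠ 0`.
-/

namespace Pool.Agent.Results.MP_1d384c_nt.ThreeIsogenyBound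

open Pool.Agent.W309.T3

theorem result :
    BoundQuad ∧ BoundPoint ∧ BoundRat ∧ ZeroNonsquare ∧ ZeroSquare ∧ ZeroFamily :=
  ⟨boundQuad, boundPoint, boundRat, zeroNonsquare, zeroSquare, zeroFamily⟩

end Pool.Agent.Results.MP_1d384c_nt.ThreeIsogenyBound
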